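import Pool.Agent.Run7.h484.KG.Disc

/-!
# Kolmogorov extensions: arbitrary sequences of group elements, polynomial exponents

A group `G` acts by measure preserving bijections `Φ g` of a probability space `(X, μ)`; for the
maps `T_i = Φ (t_i)` of the problem one takes `t_1, …, t_d ∈ G`. `G` need not be commutative or
nilpotent.

* `IsKolmogorovExtension 𝒜 𝒴 μ Φ ℓ`: with respect to the homomorphism `ℓ : G → ℝ` the action is a
  Kolmogorov extension of its factor `𝒴` with the past `𝒜`: `(Φ g)⁻¹ 𝒜 ⊆ 𝒜` if `ℓ g ≤ 0`, the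
  `(Φ g)⁻¹ 𝒜` generate all measurable sets and their intersection is contained in `𝒴`, modulo `μ`.
  For trivial `𝒴` these are the Kolmogorov (`K`-) actions. Nothing is assumed about `𝒴`.
* `Dispersed a`: for every `R`, outside a set of density zero, at most `o(N / log N)` of the `n`
  with `|n| ≤ N` have `a n` in a common interval of length `R`. For example `a` may be a
  nonconstant real polynomial (then at most a constant number), or grow like `|n|^c`, `c > 0`, or
  like `(log |n|)^c`, `c > 2`.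
* `Separated a b`: for every `R` the set of the `n` with `|a n - b n| < R` has density zero.
* `word t p n = t_1^(p_1(n)) ⋯ t_d^(p_d(n))`, and `level ℓ t p` is the real polynomial
  `ℓ (t_1) p_1 + ⋯ + ℓ (t_d) p_d`, whose value at `n` is `ℓ (word t p n)`.
* `SingleAveragesConverge μ S`: the averages over `|n| ≤ N` of single bounded functions along `S n`
  converge almost everywhere (the case `m = 1` of the problem).
* `HasDiscreteSpectrum 𝒴 μ Φ`: linear combinations of bounded `𝒴`-measurable eigenfunctions of the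
  action are dense, for the `L¹` distance, in the bounded `𝒴`-measurable functions.
-/

set_option autoImplicit false

open Filter Topology MeasureTheory
open scoped ENNReal

namespace Pool.Agent.Results.MP_4d8f14_an.KolmogorovSequences

/-- The action `Φ` is a Kolmogorov extension, with the past `𝒜`, of its factor `𝒴`. -/
structure IsKolmogorovExtension {X G : Type} [Group G] (𝒜 𝒴 : MeasurableSpace X)
    [mX : MeasurableSpace X] (μ : Measure X) (Φ : G →* Equiv.Perm X) (ℓ : G → ℝ) : Prop where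
  /-- the action preserves the measure -/
  pres : ∀ g, MeasurePreserving (Φ g) μ μ
  /-- `ℓ` is a homomorphism -/
  hom : ∀ g h, ℓ (g * h) = ℓ g + ℓ h
  /-- the past consists of measurable sets -/
  past : 𝒜 ≤ mX
  /-- the factor is contained in the past -/
  base : 𝒴 ≤ 𝒜
  /-- the factor is invariant -/
  inv : ∀ g, Measurable[𝒴, 𝒴] (Φ g : X → X)
  /-- the past is monotone -/
  mono : ∀ g, ℓ g ≤ 0 → 𝒜.comap (Φ g : X → X) ≤ 𝒜
  /-- the images of the past generate everything modulo null sets -/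
  gen : ∀ B, MeasurableSet[mX] B →
    ∃ B', MeasurableSet[⨆ g, 𝒜.comap (Φ g : X → X)] B' ∧ B =ᵐ[μ] B'
  /-- the tail is contained in the factor modulo null sets -/
  tail : ∀ B, (∀ g, MeasurableSet[𝒜.comap (Φ g : X → X)] B) →
    ∃ B', MeasurableSet[𝒴] B' ∧ B =ᵐ[μ] B'

open Classical in
/-- The set `E` of integers has density zero. -/
def DensityZero (E : Set ℤ) : Prop :=
  Tendsto (fun N : ℕ => (((Finset.Icc (-(N : ℤ)) N).filter fun n => n ∈ E).card : ℝ) / N)
    atTop (𝓝 0)

/-- For every `R` there is a set `E` of density zero such that at most `L N = o(N / log N)` of the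
`n ∉ E` with `|n| ≤ N` have `a n` in a given interval of length `R`. -/
def Dispersed (a : ℤ → ℝ) : Prop :=
  ∀ R : ℝ, ∃ (L : ℕ → ℕ) (E : Set ℤ), DensityZero E ∧
    Tendsto (fun N : ℕ => (L N : ℝ) * Real.log N / N) atTop (𝓝 0) ∧
    ∀ (N : ℕ) (s : ℝ) (T : Finset ℤ),
      (∀ n ∈ T, |n| ≤ (N : ℤ) ∧ n ∉ E ∧ s ≤ a n ∧ a n < s + R) → T.card ≤ L N

/-- For every `R` the distance of `a n` and `b n` is at least `R` outside a set of density zero. -/
def Separated (a b : ℤ → ℝ) : Prop := ∀ R : ℝ, DensityZero {n | |a n - b n| < R}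

/-- The ordered product `t_1^(p_1(n)) ⋯ t_d^(p_d(n))`. -/
def word {G : Type} [Group G] {d : ℕ} (t : Fin d → G) (p : Fin d → Polynomial ℤ) (n : ℤ) : G :=
  (List.ofFn fun i : Fin d => t i ^ (p i).eval n).prod

/-- The real polynomial `ℓ (t_1) p_1 + ⋯ + ℓ (t_d) p_d`. -/
noncomputable def level {G : Type} {d : ℕ} (ℓ : G → ℝ) (t : Fin d → G)
    (p : Fin d → Polynomial ℤ) : Polynomial ℝ :=
  ∑ i, Polynomial.C (ℓ (t i)) * (p i).map (Int.castRingHom ℝ)

/-- For every bounded measurable function `F` the averages over `|n| ≤ N` of `F (S n x)` converge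
for almost every `x`. -/
def SingleAveragesConverge {X : Type} [MeasurableSpace X] (μ : Measure X) (S : ℤ → X → X) : Prop :=
  ∀ F : X → ℝ, Measurable F → (∃ C : ℝ, ∀ x, |F x| ≤ C) →
    ∀ᵐ x ∂μ, ∃ L : ℝ, Tendsto (fun N : ℕ => ((2 * N + 1 : ℕ) : ℝ)⁻¹ *
      ∑ n ∈ Finset.Icc (-(N : ℤ)) (N : ℤ), F (S n x)) atTop (𝓝 L)

/-- The factor `𝒴` has discrete spectrum. -/
def HasDiscreteSpectrum {X G : Type} [Group G] (𝒴 : MeasurableSpace X) [MeasurableSpace X]
    (μ : Measure X) (Φ : G →* Equiv.Perm X) : Prop :=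
  ∀ e : X → ℂ, Measurable[𝒴] e → (∃ C : ℝ, ∀ x, ‖e x‖ ≤ C) → ∀ ε : ℝ, 0 < ε →
    ∃ (s : ℕ) (c : Fin s → ℂ) (h : Fin s → X → ℂ), (∀ i, Measurable[𝒴] (h i) ∧
      (∃ C : ℝ, ∀ x, ‖h i x‖ ≤ C) ∧ ∃ χ : G →* Circle, ∀ g, ∀ᵐ x ∂μ,
        h i (Φ g x) = (χ g : ℂ) * h i x) ∧ ∫ x, ‖e x - ∑ i, c i * h i x‖ ∂μ ≤ ε

/-- Let `X` be a Kolmogorov extension of its factor `𝒴` with respect to `ℓ : G → ℝ` and let
`f_1, …, f_m ∈ L^∞(X)`. All averages are over `|n| ≤ N`.

1. Let `g_1, …, g_m : ℤ → G` be arbitrary sequences such that the sequences `ℓ (g_j(n))` are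
   dispersed and pairwise separated, and such that for each `j` either `g_j(n) = w b^n` for some
   `w, b ∈ G` or the averages of single bounded functions along `g_j` converge almost everywhere.
   Then for all uniformly bounded `𝒴`-measurable weights `c_n` the averages of
   `(∏_j f_j (g_j(n) x) - ∏_j E(f_j | 𝒴) (g_j(n) x)) c_n(x)` tend to zero for almost every `x`.
2. Let `g_j(n) = t_1^(P_1j(n)) ⋯ t_d^(P_dj(n))` with `t_i ∈ G`, `P_ij ∈ ℤ[n]`, where the real
   polynomials `∑_i ℓ (t_i) P_ij` and their differences are not constant. Then the `ℓ (g_j(n))` are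
   dispersed and pairwise separated. If `𝒴` has discrete spectrum (for example if `𝒴` is trivial)
   and for each `j` one of the alternatives of 1 holds, then the averages of `∏_j f_j (g_j(n) x)`
   converge for almost every `x`. -/
theorem result (m : ℕ) {X G : Type} [Group G] (𝒜 𝒴 : MeasurableSpace X)
    [mX : MeasurableSpace X] (μ : Measure X) [IsProbabilityMeasure μ] (Φ : G →* Equiv.Perm X)
    (ℓ : G → ℝ) (hX : IsKolmogorovExtension 𝒜 𝒴 μ Φ ℓ)
    (f : Fin m → X → ℂ) (hf : ∀ j, MemLp (f j) ∞ μ) :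
    (∀ g : Fin m → ℤ → G, (∀ j, Dispersed fun n => ℓ (g j n)) →
      (∀ i j, i ≠ j → Separated (fun n => ℓ (g i n)) fun n => ℓ (g j n)) →
      (∀ j, (∃ w b : G, ∀ n, g j n = w * b ^ n) ∨
        SingleAveragesConverge μ fun n => (Φ (g j n) : X → X)) →
      ∀ c : ℤ → X → ℂ, (∀ n, Measurable[𝒴] (c n)) → (∃ C : ℝ, ∀ n x, ‖c n x‖ ≤ C) →
        ∀ᵐ x ∂μ, Tendsto (fun N : ℕ => ((2 * N + 1 : ℕ) : ℂ)⁻¹ *
          ∑ n ∈ Finset.Icc (-(N : ℤ)) (N : ℤ), (∏ j, f j (Φ (g j n) x) -
            ∏ j, (μ[f j | 𝒴]) (Φ (g j n) x)) * c n x) atTop (𝓝 0)) ∧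
    (∀ (d : ℕ) (t : Fin d → G) (P : Fin d → Fin m → Polynomial ℤ),
      (∀ j, (level ℓ t fun i => P i j).natDegree ≠ 0) →
      (∀ j j', j ≠ j' →
        ((level ℓ t fun i => P i j) - level ℓ t fun i => P i j').natDegree ≠ 0) →
      (∀ j, Dispersed fun n => ℓ (word t (fun i => P i j) n)) ∧
      (∀ j j', j ≠ j' → Separated (fun n => ℓ (word t (fun i => P i j) n))
        fun n => ℓ (word t (fun i => P i j') n)) ∧
      (HasDiscreteSpectrum 𝒴 μ Φ →
        (∀ j, (∃ w b : G, ∀ n, word t (fun i => P i j) n = w * b ^ n) ∨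
          SingleAveragesConverge μ fun n => (Φ (word t (fun i => P i j) n) : X → X)) →
        ∀ᵐ x ∂μ, ∃ L : ℂ, Tendsto (fun N : ℕ => ((2 * N + 1 : ℕ) : ℂ)⁻¹ *
          ∑ n ∈ Finset.Icc (-(N : ℤ)) (N : ℤ), ∏ j, f j (Φ (word t (fun i => P i j) n) x))
          atTop (𝓝 L))) := by
  have hK : Pool.Agent.TH784.KE.KExt μ 𝒜 𝒴 Φ ℓ :=
    ⟨hX.pres, ⟨hX.hom, hX.past, hX.mono⟩, ⟨hX.base, hX.inv⟩, hX.gen, hX.tail⟩
  have hgood : ∀ a : ℤ → G, ((∃ w b : G, ∀ n, a n = w * b ^ n) ∨
      SingleAveragesConverge μ fun n => (Φ (a n) : X → X)) →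
      Pool.Agent.TH739.PA.Good atTop Pool.Agent.Run7.h484.KG.Ic μ
        fun n => (Φ (a n) : X → X) := by
    intro a ha
    rcases ha with ⟨w, b, hwb⟩ | h
    · simp only [hwb]
      exact Pool.Agent.Run7.h484.KG.good_powZ hX.pres w b
    · intro F hF hb
      filter_upwards [h F hF hb] with x hx
      obtain ⟨L, hL⟩ := hx
      refine ⟨L, hL.congr fun N => ?_⟩
      unfold Pool.Agent.TH739.PA.avr
      rw [Pool.Agent.Run7.h484.KG.Ic_card]
      rfl
  refine ⟨?_, ?_⟩
  · intro g hdisp hsepa hsingle c hc hcb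
    rcases Nat.eq_zero_or_pos m with hm | hm
    · subst hm
      refine Eventually.of_forall fun x => ?_
      simp only [Finset.univ_eq_empty, Finset.prod_empty, sub_self, zero_mul,
        Finset.sum_const_zero, mul_zero]
      exact tendsto_const_nhds
    · obtain ⟨s₀, hs₀⟩ := Pool.Agent.Run7.h484.KG.exists_posZ hK (hdisp ⟨0, hm⟩)
      have h := Pool.Agent.Run7.h484.KG.char_topZ (q := fun n j => g j n) hK hs₀ hdisp hsepa
        (fun j => hgood _ (hsingle j)) hc hcb hf
      filter_upwards [h] with x hx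
      refine hx.congr fun N => ?_
      unfold Pool.Agent.TH739.PA.av
      rw [Pool.Agent.Run7.h484.KG.Ic_card]
      rfl
  · intro d t P hnc hdiff
    have hlev : ∀ j (n : ℤ), ℓ (word t (fun i => P i j) n) =
        (level ℓ t fun i => P i j).eval (n : ℝ) := fun j n =>
      Pool.Agent.Run7.h484.KG.level_wordZ hX.hom t (fun i => P i j) n
    have hdisp : ∀ j, Dispersed fun n => ℓ (word t (fun i => P i j) n) := by
      intro j
      simp only [hlev]
      exact Pool.Agent.Run7.h484.KG.dispi_poly _ (hnc j)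
    have hsepa : ∀ j j', j ≠ j' → Separated (fun n => ℓ (word t (fun i => P i j) n))
        fun n => ℓ (word t (fun i => P i j') n) := by
      intro j j' hjj
      simp only [hlev]
      exact Pool.Agent.Run7.h484.KG.sepi_poly _ _ (hdiff j j' hjj)
    refine ⟨hdisp, hsepa, fun hdisc hsingle => ?_⟩
    rcases Nat.eq_zero_or_pos m with hm | hm
    · subst hm
      refine Eventually.of_forall fun x => ⟨1, tendsto_const_nhds.congr fun N => ?_⟩
      simp only [Finset.univ_eq_empty, Finset.prod_empty]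
      rw [Finset.sum_const, Pool.Agent.TH739.PA.Icc_card, nsmul_eq_mul, mul_one,
        inv_mul_cancel₀ (by exact_mod_cast Nat.succ_ne_zero (2 * N))]
    · obtain ⟨s₀, hs₀⟩ := Pool.Agent.Run7.h484.KG.exists_posZ hK (hdisp ⟨0, hm⟩)
      have h := Pool.Agent.Run7.h484.KG.disc_topZ hK hs₀ t (fun j i => P i j) hdisp hsepa
        (fun j => hgood _ (hsingle j)) hdisc hf
      filter_upwards [h] with x hx
      obtain ⟨L, hL⟩ := hx
      refine ⟨L, hL.congr fun N => ?_⟩
      unfold Pool.Agent.TH739.PA.av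
      rw [Pool.Agent.Run7.h484.KG.Ic_card]
      rfl

end Pool.Agent.Results.MP_4d8f14_an.KolmogorovSequences
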