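import Pool.Agent.Run7.h274.DelFin
import Pool.Agent.Run7.h274.DelPoly

set_option autoImplicit false

/-!
# Multiple ergodic averages with random delays

Multiple averages of arbitrary (not necessarily commuting) measure preserving maps along polynomial
times converge almost everywhere, for almost every choice of independent random delays.
-/

namespace Pool.Agent.Results.MP_4d8f14_an.RandomDelays

open Filter Topology MeasureTheory ProbabilityTheory Finset
open Pool.Agent.Run7.h274.Del (Reg)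

universe u v

/-- real functions in `L^∞` -/
def EssBdd {X : Type u} [MeasurableSpace X] (μ : Measure X) (f : X → ℝ) : Prop :=
  AEStronglyMeasurable f μ ∧ ∃ C : ℝ, ∀ᵐ x ∂μ, |f x| ≤ C

/-- weights: arbitrary measurable functions bounded by one -/
def Weights {X : Type u} [MeasurableSpace X] (μ : Measure X) (c : ℕ → X → ℝ) : Prop :=
  ∀ n, AEStronglyMeasurable (c n) μ ∧ ∀ᵐ x ∂μ, |c n x| ≤ 1

/-- conditional expectation on the sets invariant under `T` -/
noncomputable def inv {X : Type u} [MeasurableSpace X] (μ : Measure X) (T : X → X) (f : X → ℝ) :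
    X → ℝ := μ[f | MeasurableSpace.invariants T]

/-- delays: the random vectors `ξ n` are independent, and `ξ n` is uniform in the box of the `v`
with `0 ≤ v j < L j n` -/
structure Delays {Ω : Type v} [MeasurableSpace Ω] (P : Measure Ω) {m : ℕ} (L : Fin m → ℕ → ℕ)
    (ξ : ℕ → Ω → Fin m → ℕ) : Prop where
  meas : ∀ n, Measurable (ξ n)
  indep : iIndepFun ξ P
  unif : ∀ n, ∀ v : Fin m → ℕ, (∀ j, v j < L j n) → P.real {ω | ξ n ω = v} = ∏ j, (L j n : ℝ)⁻¹

/-- the averages of the first `N` terms -/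
noncomputable def avg (u : ℕ → ℝ) (N : ℕ) : ℝ := (N : ℝ)⁻¹ * ∑ n ∈ range N, u n

/-- Regular times (see `Reg`), windows `L j` which are the same for all systems, arbitrary
measure preserving maps `T j`. Polynomials of degree `d ≥ 1` with natural coefficients are regular
with the windows `(n + 1)^(d - 1) l(n)`, where `l` tends to infinity as slowly as one likes. -/
theorem result :
    (∀ (Ω : Type v) (X : Type u) [MeasurableSpace Ω] [MeasurableSpace X] (P : Measure Ω)
      [IsProbabilityMeasure P] (μ : Measure X) [IsProbabilityMeasure μ] (m : ℕ)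
      (T : Fin m → X → X) (f : Fin m → X → ℝ) (a L : Fin m → ℕ → ℕ) (K : ℕ)
      (ξ : ℕ → Ω → Fin m → ℕ) (c : ℕ → X → ℝ),
      (∀ j, MeasurePreserving (T j) μ μ) → (∀ j, EssBdd μ (f j)) → (∀ j, Reg K (a j) (L j)) →
      Delays P L ξ → Weights μ c →
      ∀ᵐ ω ∂P, ∀ᵐ x ∂μ,
        Tendsto (avg fun n => ∏ j, f j ((T j)^[a j n + ξ n ω j] x)) atTop
          (𝓝 (∏ j, inv μ (T j) (f j) x)) ∧
        Tendsto (avg fun n => c n x * (∏ j, f j ((T j)^[a j n + ξ n ω j] x) -
          ∏ j, inv μ (T j) (f j) x)) atTop (𝓝 0)) ∧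
    (∀ (p : Polynomial ℕ) (l : ℕ → ℕ) (K : ℕ), 1 ≤ p.natDegree → (∀ n, 0 < l n) → Monotone l →
      Tendsto l atTop atTop → (∀ n, 1 ≤ n → l (2 * n) ≤ K * l n) → (∀ n, l n ≤ K * (n + 1)) →
      ∃ K' : ℕ, Reg K' (fun n => p.eval n) (fun n => (n + 1) ^ (p.natDegree - 1) * l n)) := by
  have hone : ∀ (X : Type u) [MeasurableSpace X] (μ : Measure X), Weights μ (fun _ _ => (1:ℝ)) :=
    fun X _ μ n => ⟨aestronglyMeasurable_const, Eventually.of_forall fun x => by simp⟩
  refine ⟨?_, ?_⟩
  · intro Ω X _ _ P _ μ _ m T f a L K ξ c hT hf hR hξ hc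
    have h1 := Pool.Agent.Run7.h274.Del.fin1 P μ m T hT f hf a L K hR ξ hξ.meas hξ.indep hξ.unif c hc
    have h2 := Pool.Agent.Run7.h274.Del.fin1 P μ m T hT f hf a L K hR ξ hξ.meas hξ.indep hξ.unif
      (fun _ _ => (1:ℝ)) (hone X μ)
    filter_upwards [h1, h2] with ω k1 k2
    filter_upwards [k1, k2] with x j1 j2
    exact ⟨Pool.Agent.Run7.h274.Del.unw _ _ j2, j1⟩
  · intro p l K hp hl0 hlm hlt hl2 hln
    exact Pool.Agent.Run7.h274.Del.poly_reg p hp l K hl0 hlm hlt hl2 hln

end Pool.Agent.Results.MP_4d8f14_an.RandomDelays
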