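import Pool.Agent.Run7.h694.BT.F

/-!
# Multiple averages of group actions: towers of extensions (MP_4d8f14_an)

`G` is any group (nilpotent or not) which acts by measure preserving bijections `Φ g` of probability
spaces, and `𝒰` is a set of elements of `G`. For `b_1, …, b_m ∈ 𝒰` (not necessarily commuting) the averages
of `f_1 (b_1^n x) ⋯ f_m (b_m^n x)` are those of the question with `g_j (n) = b_j^n`. The files of this folder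
treat single actions, or one extension of a given action. Here the class of the actions with almost
everywhere convergence is closed under extensions, which are iterated in any order and any number of times.

Notions of the starting library:
* `IsGaussAct μ Φ`: an action of commuting maps on a Gaussian space; `IsGaussianSystem μ S`: the maps `S g`
  act on a Gaussian space: there is a real vector space of centered Gaussian variables, invariant under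
  the maps and their inverses (modulo null sets), which generates the `σ`-algebra;
* `IsDiscAct δ Δ`: an action with discrete spectrum: linear combinations of bounded eigenfunctions are
  dense;
* `IsPoissonAction κ Θ ν Ψ`: the action `Ψ` on the probability space `(Y, ν)` is a Poisson suspension of
  the action `Θ` on the (infinite) measure space `(W, κ)`;
* `pact Φ Ψ`: the product action `g ↦ Φ g × Ψ g`;
* `skewMap A S φ`: the map `(y, t) ↦ (S y, A t + φ y)` of `Y × 𝕋^d`; `haarT d`: Haar measure of `𝕋^d`;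
  `Indep A`: for every `q ≥ 1` the only integer vectors `v j` for which `∑ j, (A jᵀ) ^ (q n) v j` does not
  depend on `n` are zero.
-/

set_option autoImplicit false

open Filter Topology MeasureTheory ProbabilityTheory
open scoped ENNReal symmDiff commutatorElement

namespace Pool.Agent.Results.MP_4d8f14_an.TowersOfActions

open Pool.Agent.TH739.PA (IsPoissonAction)
open Pool.Agent.TH739.PB (pact pact_mp IsDiscAct IsGaussAct)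
open Pool.Agent.W761.Gauss (IsGaussianSystem)
open Pool.Agent.H922R3.TA (skewMap haarT Indep)

/-- a measure preserving action of `G` on a probability space -/
structure Sys (G : Type) [Group G] where
  X : Type
  [ms : MeasurableSpace X]
  μ : Measure X
  [prob : IsProbabilityMeasure μ]
  Φ : G →* Equiv.Perm X
  mp : ∀ g, MeasurePreserving (Φ g) μ μ

attribute [instance] Sys.ms Sys.prob

variable {G : Type} [Group G]

/-- for `b_j ∈ 𝒰`, `w_j ∈ G`, the averages over `-N ≤ n ≤ N` of `∏ j, f j (w_j b_j^n x)` converge for almost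
every `x` -/
def ConvergesTwoSided (𝒰 : Set G) (𝕏 : Sys G) : Prop :=
  ∀ (m : ℕ) (b w : Fin m → G), (∀ j, b j ∈ 𝒰) →
    ∀ f : Fin m → 𝕏.X → ℂ, (∀ j, MemLp (f j) ∞ 𝕏.μ) →
    ∀ᵐ x ∂𝕏.μ, ∃ L : ℂ, Tendsto (fun N : ℕ => ((2 * N + 1 : ℕ) : ℂ)⁻¹ *
      ∑ n ∈ Finset.Icc (-(N : ℤ)) (N : ℤ), ∏ j, f j (𝕏.Φ (w j * b j ^ n) x)) atTop (𝓝 L)

/-- for `b_j ∈ 𝒰`, `w_j ∈ G` and every integer `q ≠ 0`, the averages over `0 ≤ n < N` of
`∏ j, f j (w_j b_j^{q n} x)` converge for almost every `x` -/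
def Converges (𝒰 : Set G) (𝕏 : Sys G) : Prop :=
  ∀ q : ℤ, q ≠ 0 → ∀ (m : ℕ) (b w : Fin m → G), (∀ j, b j ∈ 𝒰) →
    ∀ f : Fin m → 𝕏.X → ℂ, (∀ j, MemLp (f j) ∞ 𝕏.μ) →
    ∀ᵐ x ∂𝕏.μ, ∃ L : ℂ, Tendsto (fun N : ℕ => (N : ℂ)⁻¹ * ∑ n ∈ Finset.range N,
      ∏ j, f j (𝕏.Φ (w j * (b j ^ q) ^ n) x)) atTop (𝓝 L)

/-- the same, jointly with every further measure preserving map `V` of a probability space `(Ω, P)`: the
averages of `(∏ j, f j (w_j b_j^{q n} x)) h (V^n ω)` converge for almost every `(x, ω)` -/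
def ConvergesJointly (𝒰 : Set G) (𝕏 : Sys G) : Prop :=
  ∀ q : ℤ, q ≠ 0 → ∀ (m : ℕ) (b w : Fin m → G), (∀ j, b j ∈ 𝒰) →
    ∀ f : Fin m → 𝕏.X → ℂ, (∀ j, MemLp (f j) ∞ 𝕏.μ) →
    ∀ (Ω : Type) [MeasurableSpace Ω] (P : Measure Ω) [IsProbabilityMeasure P] (V : Ω → Ω),
      MeasurePreserving V P P → ∀ h : Ω → ℂ, MemLp h ∞ P →
    ∀ᵐ p ∂(𝕏.μ.prod P), ∃ L : ℂ, Tendsto (fun N : ℕ => (N : ℂ)⁻¹ * ∑ n ∈ Finset.range N,
      (∏ j, f j (𝕏.Φ (w j * (b j ^ q) ^ n) p.1)) * h (V^[n] p.2)) atTop (𝓝 L)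

/-- the one-point system -/
noncomputable def Sys.point : Sys G := ⟨Unit, Measure.dirac (), 1, fun _ => MeasurePreserving.id _⟩

/-- the product of two actions -/
noncomputable def Sys.prod (𝕏 𝕐 : Sys G) : Sys G :=
  ⟨𝕏.X × 𝕐.X, 𝕏.μ.prod 𝕐.μ, pact 𝕏.Φ 𝕐.Φ, pact_mp 𝕏.mp 𝕐.mp⟩

/-- `π` is a factor map from `𝕏` onto `𝕐` -/
structure IsFactorMap (𝕏 𝕐 : Sys G) (π : 𝕏.X → 𝕐.X) : Prop where
  mp : MeasurePreserving π 𝕏.μ 𝕐.μ
  equi : ∀ g, ∀ᵐ x ∂𝕏.μ, π (𝕏.Φ g x) = 𝕐.Φ g (π x)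

/-- `𝕏` is a Kolmogorov extension of `𝕐`, with respect to the homomorphism `ℓ : G → ℝ`: the `σ`-algebra
`𝒜` decreases under the maps `Φ g` with `ℓ g ≤ 0`, its translates generate, and a set which belongs to all
translates of `𝒜` comes from `𝕐` (modulo null sets) -/
structure IsKolmogorov (𝕏 𝕐 : Sys G) (π : 𝕏.X → 𝕐.X) (𝒜 : MeasurableSpace 𝕏.X) (ℓ : G → ℝ) :
    Prop where
  mp : @MeasurePreserving 𝕏.X 𝕐.X 𝕏.ms 𝕐.ms π 𝕏.μ 𝕐.μ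
  equi : ∀ g x, π (𝕏.Φ g x) = 𝕐.Φ g (π x)
  hom : ∀ g h, ℓ (g * h) = ℓ g + ℓ h
  le : 𝒜 ≤ 𝕏.ms
  base : 𝕐.ms.comap π ≤ 𝒜
  mono : ∀ g, ℓ g ≤ 0 → 𝒜.comap (𝕏.Φ g : 𝕏.X → 𝕏.X) ≤ 𝒜
  gen : ∀ B, MeasurableSet[𝕏.ms] B →
    ∃ B', MeasurableSet[⨆ g, 𝒜.comap (𝕏.Φ g : 𝕏.X → 𝕏.X)] B' ∧ B =ᵐ[𝕏.μ] B'
  tail : ∀ B, (∀ g, MeasurableSet[𝒜.comap (𝕏.Φ g : 𝕏.X → 𝕏.X)] B) →
    ∃ D, MeasurableSet D ∧ B =ᵐ[𝕏.μ] π ⁻¹' D

/-- `ℛ` is a dense family of sets of finite measure -/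
def IsDenseFamily {W : Type} [MeasurableSpace W] (κ : Measure W) (ℛ : Set (Set W)) : Prop :=
  (∀ A ∈ ℛ, MeasurableSet A ∧ κ A ≠ ∞) ∧
    ∀ A, MeasurableSet A → κ A ≠ ∞ → ∀ ε : ℝ, 0 < ε → ∃ B ∈ ℛ, (κ (A ∆ B)).toReal ≤ ε

/-- for `c = a^q ≠ e = b^q`, `a, b ∈ 𝒰`, `q ≠ 0`, and `A`, `B` in a dense family, the overlaps
`κ (c^{-n} A ∩ e^{-n} B) / (1 + n)` are summable -/
def SummableOverlaps {W : Type} [MeasurableSpace W] (𝒰 : Set G) (κ : Measure W)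
    (Θ : G →* Equiv.Perm W) : Prop :=
  ∃ ℛ : Set (Set W), IsDenseFamily κ ℛ ∧ ∀ q : ℤ, q ≠ 0 → ∀ a ∈ 𝒰, ∀ b ∈ 𝒰, a ^ q ≠ b ^ q →
    ∀ A ∈ ℛ, ∀ B ∈ ℛ, Summable fun n : ℕ =>
      κ.real (Θ ((a ^ q) ^ n) ⁻¹' A ∩ Θ ((b ^ q) ^ n) ⁻¹' B) / (1 + (n : ℝ))

/-- for `c = a^q`, `a ∈ 𝒰`, `q ≠ 0`, and `A` in a dense family, the overlaps
`κ (c^{-n} A ∩ c^{-p} A) / (1 + max n p)^2` are summable, and for `c = a^q ≠ e = b^q` the averages of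
`κ (c^{-n} A ∩ e^{-n} B)` tend to zero -/
def SmallOverlaps {W : Type} [MeasurableSpace W] (𝒰 : Set G) (κ : Measure W)
    (Θ : G →* Equiv.Perm W) : Prop :=
  ∃ ℛ : Set (Set W), IsDenseFamily κ ℛ ∧ ∀ q : ℤ, q ≠ 0 →
    (∀ a ∈ 𝒰, ∀ A ∈ ℛ, Summable fun p : ℕ × ℕ =>
      κ.real (Θ ((a ^ q) ^ p.1) ⁻¹' A ∩ Θ ((a ^ q) ^ p.2) ⁻¹' A) /
        (1 + max (p.1 : ℝ) (p.2 : ℝ)) ^ 2) ∧
    ∀ a ∈ 𝒰, ∀ b ∈ 𝒰, a ^ q ≠ b ^ q → ∀ A ∈ ℛ, ∀ B ∈ ℛ, Tendsto (fun N : ℕ =>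
      (N : ℝ)⁻¹ * ∑ n ∈ Finset.range N,
        κ.real (Θ ((a ^ q) ^ n) ⁻¹' A ∩ Θ ((b ^ q) ^ n) ⁻¹' B)) atTop (𝓝 0)

/-- The two classes, `Tower 𝒰 𝒥 𝒢 true` for joint and `Tower 𝒰 𝒥 𝒢 false` for plain convergence.

The joint class contains a given class `𝒥`, the one-point system and the Gaussian actions by commuting
maps; it is closed under products with actions with discrete spectrum and under products with Poisson
suspensions with summable overlaps. The plain class contains a given class `𝒢`, the joint class, the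
Gaussian actions for which the commutators of the `Φ (a^q)`, `a ∈ 𝒰`, commute with them, and the actions
for which the `Φ a`, `a ∈ 𝒰`, are commuting affine bijections of a compact Hausdorff abelian group; it is
closed under products with Poisson suspensions with small overlaps and under toral skew products. Both
classes are closed under Kolmogorov extensions, factors, inverse limits and mixtures. -/
inductive Tower (𝒰 : Set G) (𝒥 𝒢 : Sys G → Prop) : Bool → Sys G → Prop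
  | joint (𝕏 : Sys G) : 𝒥 𝕏 → Tower 𝒰 𝒥 𝒢 true 𝕏
  | plain (𝕏 : Sys G) : 𝒢 𝕏 → Tower 𝒰 𝒥 𝒢 false 𝕏
  | forget (𝕏 : Sys G) : Tower 𝒰 𝒥 𝒢 true 𝕏 → Tower 𝒰 𝒥 𝒢 false 𝕏
  | point : Tower 𝒰 𝒥 𝒢 true Sys.point
  | gaussian (𝕏 : Sys G) : IsGaussAct 𝕏.μ 𝕏.Φ → Tower 𝒰 𝒥 𝒢 true 𝕏
  | gaussianTwo (𝕏 : Sys G) : IsGaussianSystem 𝕏.μ (fun g : G => 𝕏.Φ g) →
      (∀ q : ℤ, q ≠ 0 → ∀ a ∈ 𝒰, ∀ b ∈ 𝒰,
        Commute ⁅𝕏.Φ (a ^ q), 𝕏.Φ (b ^ q)⁆ (𝕏.Φ (a ^ q))) → Tower 𝒰 𝒥 𝒢 false 𝕏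
  | discrete (𝔻 𝕏 : Sys G) : IsDiscAct 𝔻.μ 𝔻.Φ → Tower 𝒰 𝒥 𝒢 true 𝕏 →
      Tower 𝒰 𝒥 𝒢 true (𝔻.prod 𝕏)
  | poisson (𝕏 𝕐 : Sys G) {W : Type} [MeasurableSpace W] [Nonempty W] (κ : Measure W) [SFinite κ]
      (Θ : G →* Equiv.Perm W) : IsPoissonAction κ Θ 𝕐.μ 𝕐.Φ → SummableOverlaps 𝒰 κ Θ →
      Tower 𝒰 𝒥 𝒢 true 𝕏 → Tower 𝒰 𝒥 𝒢 true (𝕏.prod 𝕐)
  | poissonPlain (𝕏 𝕐 : Sys G) {W : Type} [MeasurableSpace W] (κ : Measure W)
      (Θ : G →* Equiv.Perm W) : IsPoissonAction κ Θ 𝕐.μ 𝕐.Φ → SmallOverlaps 𝒰 κ Θ →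
      Tower 𝒰 𝒥 𝒢 false 𝕏 → Tower 𝒰 𝒥 𝒢 false (𝕏.prod 𝕐)
  | affine {X : Type} [CommGroup X] [TopologicalSpace X] [IsTopologicalGroup X] [CompactSpace X]
      [T2Space X] [MeasurableSpace X] [BorelSpace X] (μ : Measure X) [μ.IsHaarMeasure]
      [IsProbabilityMeasure μ] (Φ : G →* Equiv.Perm X) (mp : ∀ g, MeasurePreserving (Φ g) μ μ) :
      (∀ a ∈ 𝒰, ∃ (α : X →ₜ* X) (c : X), ∀ x, Φ a x = α x * c) →
      (∀ a ∈ 𝒰, ∀ b ∈ 𝒰, Commute (Φ a) (Φ b)) → Tower 𝒰 𝒥 𝒢 false ⟨X, μ, Φ, mp⟩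
  | toral (𝕏 : Sys G) {d : ℕ} (A : G → Matrix (Fin d) (Fin d) ℤ)
      (φ : G → 𝕏.X → UnitAddTorus (Fin d)) (Φ : G →* Equiv.Perm (𝕏.X × UnitAddTorus (Fin d)))
      (mp : ∀ g, MeasurePreserving (Φ g) (𝕏.μ.prod (haarT d)) (𝕏.μ.prod (haarT d))) :
      (∀ g z, Φ g z = skewMap (A g) (𝕏.Φ g) (φ g) z) → (∀ g, (A g).det ≠ 0) →
      (∀ g, Measurable (φ g)) → (∀ q : ℤ, q ≠ 0 → ∀ (r : ℕ) (c : Fin r → G),
        Function.Injective c → (∀ j, ∃ a ∈ 𝒰, c j = a ^ q) →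
        Indep (fun j => A (c j)) ∨ ∀ j y, φ (c j) y = 0) →
      Tower 𝒰 𝒥 𝒢 false 𝕏 →
      Tower 𝒰 𝒥 𝒢 false ⟨𝕏.X × UnitAddTorus (Fin d), 𝕏.μ.prod (haarT d), Φ, mp⟩
  | kolmogorov (b : Bool) (𝕏 𝕐 : Sys G) (π : 𝕏.X → 𝕐.X) (𝒜 : MeasurableSpace 𝕏.X) (ℓ : G → ℝ) :
      IsKolmogorov 𝕏 𝕐 π 𝒜 ℓ → (∀ a ∈ 𝒰, ℓ a ≠ 0) → (∀ a ∈ 𝒰, ∀ b ∈ 𝒰, a ≠ b → ℓ a ≠ ℓ b) →
      Tower 𝒰 𝒥 𝒢 b 𝕐 → Tower 𝒰 𝒥 𝒢 b 𝕏
  | factor (b : Bool) (𝕏 𝕐 : Sys G) (π : 𝕏.X → 𝕐.X) : IsFactorMap 𝕏 𝕐 π →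
      Tower 𝒰 𝒥 𝒢 b 𝕏 → Tower 𝒰 𝒥 𝒢 b 𝕐
  | limit (b : Bool) (𝕏 : Sys G) (𝕐 : ℕ → Sys G) (π : ∀ i, 𝕏.X → (𝕐 i).X) :
      (∀ i, IsFactorMap 𝕏 (𝕐 i) (π i)) →
      (∀ i, (𝕐 i).ms.comap (π i) ≤ (𝕐 (i + 1)).ms.comap (π (i + 1))) →
      (∀ B, MeasurableSet B → ∀ ε : ℝ, 0 < ε → ∃ (i : ℕ) (D : Set (𝕐 i).X),
        MeasurableSet D ∧ 𝕏.μ.real (B ∆ (π i ⁻¹' D)) ≤ ε) →
      (∀ i, Tower 𝒰 𝒥 𝒢 b (𝕐 i)) → Tower 𝒰 𝒥 𝒢 b 𝕏
  | mixture (b : Bool) (𝕏 : Sys G) {Ω : Type} [MeasurableSpace Ω] (Q : Measure Ω)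
      (κ : Kernel Ω 𝕏.X) [IsMarkovKernel κ] (N : Set Ω)
      (mp : ∀ ω g, MeasurePreserving (𝕏.Φ g) (κ ω) (κ ω)) :
      𝕏.μ = Q.bind κ → Q N = 0 → (∀ ω, ω ∉ N → Tower 𝒰 𝒥 𝒢 b ⟨𝕏.X, κ ω, 𝕏.Φ, mp ω⟩) →
      Tower 𝒰 𝒥 𝒢 b 𝕏

open Run7.h694.BT

theorem ell_zpow {ℓ : G → ℝ} (h : ∀ g h, ℓ (g * h) = ℓ g + ℓ h) (a : G) (q : ℤ) :
    ℓ (a ^ q) = q * ℓ a := by
  have h1 : ℓ 1 = 0 := by
    have := h 1 1
    rw [one_mul] at this
    linarith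
  have hi : ∀ g, ℓ g⁻¹ = -ℓ g := by
    intro g
    have := h g g⁻¹
    rw [mul_inv_cancel, h1] at this
    linarith
  have hn : ∀ n : ℕ, ℓ (a ^ n) = n * ℓ a := by
    intro n
    induction n with
    | zero => simp [h1]
    | succ n ih =>
      rw [pow_succ, h, ih]
      push_cast
      ring
  cases q with
  | ofNat n =>
    rw [Int.ofNat_eq_natCast, zpow_natCast, hn]
    simp
  | negSucc n =>
    rw [zpow_negSucc, hi, hn]
    push_cast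
    ring

theorem tf_tower {𝒰 : Set G} {𝒥 𝒢 : Sys G → Prop}
    (h𝒥 : ∀ 𝕏, 𝒥 𝕏 → ConvergesJointly 𝒰 𝕏) (h𝒢 : ∀ 𝕏, 𝒢 𝕏 → Converges 𝒰 𝕏) {b : Bool}
    {𝕏 : Sys G} (h : Tower 𝒰 𝒥 𝒢 b 𝕏) : ∀ q : ℤ, q ≠ 0 → TF b (pw 𝒰 q) 𝕏.μ 𝕏.Φ := by
  induction h with
  | joint 𝕏 h =>
    intro q hq
    refine TF.of_one_joint fun r c _ hcU F hF Ω _ P _ V hV h' hm hb => ?_
    choose a ha hca using hcU
    obtain ⟨C, hC⟩ := hb
    have h1 := h𝒥 𝕏 h q hq r a (fun _ => 1) ha F (fun j => by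
      obtain ⟨hm, C, hC⟩ := hF j
      exact memLp_top_of_bound hm.aestronglyMeasurable C (Eventually.of_forall hC)) Ω P V hV
      (fun z => (h' z : ℂ)) (memLp_top_of_bound
        (Complex.measurable_ofReal.comp hm).aestronglyMeasurable C
        (Eventually.of_forall fun z => by
          rw [Complex.norm_real, Real.norm_eq_abs]
          exact hC z))
    simp only [one_mul] at h1
    simp only [hca]
    exact h1
  | plain 𝕏 h =>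
    intro q hq
    refine TF.of_one fun r c _ hcU F hF => ?_
    choose a ha hca using hcU
    have h1 := h𝒢 𝕏 h q hq r a (fun _ => 1) ha F fun j => by
      obtain ⟨hm, C, hC⟩ := hF j
      exact memLp_top_of_bound hm.aestronglyMeasurable C (Eventually.of_forall hC)
    simp only [one_mul] at h1
    simp only [hca]
    exact h1
  | forget 𝕏 _ ih => exact fun q hq => (ih q hq).forget
  | point => exact fun q hq => TF.of_JC fun r v _ _ => JC_point _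
  | gaussian 𝕏 h => exact fun q hq => TF.gauss h
  | gaussianTwo 𝕏 h hc => exact fun q hq => TF.gauss2 h (hc q hq)
  | discrete 𝔻 𝕏 h _ ih => exact fun q hq => (ih q hq).disc h 𝕏.mp
  | poisson 𝕏 𝕐 κ Θ h hs _ ih =>
    obtain ⟨ℛ, ⟨h1, h2⟩, h3⟩ := hs
    intro q hq
    refine (ih q hq).poisson 𝕏.mp h h1 h2 ?_
    rintro u ⟨a, ha, hua⟩ v ⟨b, hb, hvb⟩ huv A hA B hB
    refine OvS_one ?_
    rw [hua, hvb]
    refine h3 q hq a ha b hb (fun e => huv ?_) A hA B hB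
    funext l
    rw [Subsingleton.elim l 0, hua, hvb, e]
  | poissonPlain 𝕏 𝕐 κ Θ h hs _ ih =>
    obtain ⟨ℛ, ⟨h1, h2⟩, h3⟩ := hs
    exact fun q hq => TF.over 𝕏.mp h h1 h2 (h3 q hq).1 (h3 q hq).2 (ih q hq)
  | affine μ Φ mp h1 h2 =>
    intro q hq
    refine TF.affine ?_ ?_
    · rintro u ⟨a, ha, hua⟩ l
      rw [Subsingleton.elim l 0, hua, map_zpow]
      exact Pool.Agent.TH784.AA.IsAff.zpow (h1 a ha) q
    · rintro u ⟨a, ha, hua⟩ v ⟨b, hb, hvb⟩ l l'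
      rw [Subsingleton.elim l 0, Subsingleton.elim l' 0, hua, hvb, map_zpow, map_zpow]
      exact (h2 a ha b hb).zpow_zpow q q
  | toral 𝕏 A φ Φ mp h1 h2 h3 h4 _ ih =>
    exact fun q hq => TF.toral 𝕏.mp h2 h3 h1 (h4 q hq) hq ih
  | kolmogorov b 𝕏 𝕐 π 𝒜 ℓ hK h0 h1 _ ih =>
    intro q hq Z mZ P hP σ hσ f hf hfb hb
    obtain ⟨C, hC⟩ := hfb
    have hq' : (q : ℝ) ≠ 0 := by exact_mod_cast hq
    refine CF.kolmogorov (𝒜 := 𝒜) (mX := 𝕏.ms) hK.mp hK.equi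
      (hK := ⟨𝕏.mp, ⟨hK.hom, hK.le, hK.mono⟩, ⟨hK.base, fun g => by
        refine Measurable.of_comap_le ?_
        rw [MeasurableSpace.comap_comp]
        have e : π ∘ (𝕏.Φ g : 𝕏.X → 𝕏.X) = (𝕐.Φ g : 𝕐.X → 𝕐.X) ∘ π := funext (hK.equi g)
        rw [e, ← MeasurableSpace.comap_comp]
        exact MeasurableSpace.comap_mono (𝕐.mp g).measurable.comap_le⟩, hK.gen, fun B hB => by
        obtain ⟨D, hD, e⟩ := hK.tail B hB
        exact ⟨π ⁻¹' D, ⟨D, hD, rfl⟩, e⟩⟩) ?_ ?_ hσ hf hC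
      (ih q hq Z mZ P hP σ hσ f hf ⟨C, hC⟩ hb)
    · rintro u ⟨a, ha, hua⟩ l
      rw [Subsingleton.elim l 0, hua, ell_zpow hK.hom]
      exact mul_ne_zero hq' (h0 a ha)
    · rintro u ⟨a, ha, hua⟩ v ⟨b, hb, hvb⟩ huv
      refine ⟨0, ?_⟩
      rw [hua, hvb, ell_zpow hK.hom, ell_zpow hK.hom]
      have hab : a ≠ b := by
        rintro rfl
        apply huv
        funext l
        rw [Subsingleton.elim l 0, hua, hvb]
      exact fun e => h1 a ha b hb hab (mul_left_cancel₀ hq' e)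
  | factor b 𝕏 𝕐 π hπ _ ih =>
    intro q hq Z mZ P hP σ hσ f hf hfb hb
    exact CF.factor hπ.mp 𝕐.mp hπ.equi hσ hf (ih q hq Z mZ P hP σ hσ f hf hfb hb)
  | limit b 𝕏 𝕐 π hπ hmono hgen _ ih =>
    intro q hq Z mZ P hP σ hσ f hf hfb hb
    obtain ⟨C, hC⟩ := hfb
    exact CF.limit 𝕏.mp (fun i => (hπ i).mp) (fun i => (hπ i).equi) hmono hgen hC
      fun i => ih i q hq Z mZ P hP σ hσ f hf ⟨C, hC⟩ hb
  | mixture b 𝕏 Q κ N mp hμ hN _ ih =>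
    intro q hq Z mZ P hP σ hσ f hf hfb hb
    exact CF.mixture hμ (fun g => (𝕏.mp g).measurable) hN hσ hf
      fun ω hω => ih ω hω q hq Z mZ P hP σ hσ f hf hfb hb

/-- **Towers of extensions: several sequences `b_j^n` in a group.** Let `G` be a group, `𝒰` a set of elements
of `G`, `𝒥` a class of actions of `G` with joint convergence and `𝒢` a class of actions with convergence of
the averages along `w_1 b_1^n, …, w_m b_m^n`, `b_j ∈ 𝒰` (for instance both empty). Then for every action of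
`Tower 𝒰 𝒥 𝒢 b` the two-sided averages of `f_1 (w_1 b_1^n x) ⋯ f_m (w_m b_m^n x)` and the one-sided averages
(along all non-zero multiples `q n`) converge almost everywhere for all `f_j` in `L^∞`, jointly with
every further system if `b = true`. These are the actions which are obtained from the given classes,
from Gaussian actions, from actions with discrete spectrum and from commuting affine actions on compact
abelian groups by iterating, in any order, the operations of the two classes: products with actions with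
discrete spectrum, products with Poisson suspensions, toral skew products, Kolmogorov extensions,
factors, inverse limits and mixtures. -/
theorem result {G : Type} [Group G] (𝒰 : Set G) (𝒥 𝒢 : Sys G → Prop)
    (h𝒥 : ∀ 𝕏, 𝒥 𝕏 → ConvergesJointly 𝒰 𝕏) (h𝒢 : ∀ 𝕏, 𝒢 𝕏 → Converges 𝒰 𝕏) (b : Bool)
    (𝕏 : Sys G) (h : Tower 𝒰 𝒥 𝒢 b 𝕏) :
    ConvergesTwoSided 𝒰 𝕏 ∧ Converges 𝒰 𝕏 ∧ (b = true → ConvergesJointly 𝒰 𝕏) := by
  have hT := tf_tower h𝒥 h𝒢 h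
  refine ⟨?_, ?_, ?_⟩
  · intro m c w hc f hf
    exact (hT 1 one_ne_zero).two 𝕏.mp (hT (-1) (by norm_num)) hc w hf
  · intro q hq m c w hc f hf
    exact (hT q hq).one 𝕏.mp (c := fun j => c j ^ q) (fun j => ⟨c j, hc j, rfl⟩) w hf
  · rintro rfl q hq m c w hc f hf Ω _ P _ V hV g hg
    exact (hT q hq).one_joint 𝕏.mp (c := fun j => c j ^ q) (fun j => ⟨c j, hc j, rfl⟩) w hf hV hg

end Pool.Agent.Results.MP_4d8f14_an.TowersOfActions
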